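import Pool.Agent.N139.WS.Stm

/-!
# Project WS, task PRJ: a self-adjoint element which is almost idempotent is near a projection
-/

set_option autoImplicit false

namespace Pool.Agent.N51.WS

open Filter Topology Pool.Agent.N139.WS

/-- the step function -/
noncomputable def stp (t : ℝ) : ℝ := if t < 1 / 2 then 0 else 1

theorem stp_zero : stp 0 = 0 := by
  unfold stp
  norm_num

theorem stp_mul_self (t : ℝ) : stp t * stp t = stp t := by
  unfold stp
  split_ifs <;> norm_num

theorem stp_continuousAt {t : ℝ} (ht : t ≠ 1 / 2) : ContinuousAt stp t := by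
  rcases lt_or_gt_of_ne ht with h | h
  · refine (continuousAt_const (y := (0 : ℝ))).congr ?_
    filter_upwards [Iio_mem_nhds h] with s hs
    unfold stp
    rw [if_pos (Set.mem_Iio.1 hs)]
  · refine (continuousAt_const (y := (1 : ℝ))).congr ?_
    filter_upwards [Ioi_mem_nhds h] with s hs
    unfold stp
    rw [if_neg (not_lt.2 (Set.mem_Ioi.1 hs).le)]

theorem stp_near {t δ : ℝ} (h : |t * t - t| ≤ δ) : |stp t - t| ≤ 2 * δ := by
  have h0 : |t * t - t| = |t| * |1 - t| := by
    rw [← abs_mul, show t * (1 - t) = -(t * t - t) by ring, abs_neg]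
  rw [h0] at h
  unfold stp
  split_ifs with h1
  · rw [zero_sub, abs_neg]
    have h2 : (1 : ℝ) / 2 ≤ |1 - t| := le_trans (by linarith) (le_abs_self (1 - t))
    nlinarith [abs_nonneg t]
  · have h2 : (1 : ℝ) / 2 ≤ |t| := le_trans (not_lt.1 h1) (le_abs_self t)
    nlinarith [abs_nonneg (1 - t)]

theorem t_PRJ : S_PRJ := by
  intro B _ x δ hx hδ h
  have hsq : ∀ t ∈ quasispectrum ℝ x, |t * t - t| ≤ δ := by
    intro t ht
    have h1 : cfcₙ (fun t : ℝ => t * t - t) x = x * x - x := by
      rw [cfcₙ_sub _ _ x, cfcₙ_mul _ _ x, cfcₙ_id' ℝ x]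
    have h2 := norm_apply_le_norm_cfcₙ (fun t : ℝ => t * t - t) x ht
    rw [h1, Real.norm_eq_abs] at h2
    exact h2.trans h
  have hδ0 : 0 ≤ δ := le_trans (norm_nonneg _) h
  have hne : ∀ t ∈ quasispectrum ℝ x, t ≠ 1 / 2 := by
    rintro t ht rfl
    have := hsq _ ht
    rw [show (1 / 2 : ℝ) * (1 / 2) - 1 / 2 = -(1 / 4) by norm_num, abs_neg,
      abs_of_pos (by norm_num)] at this
    linarith
  have hc : ContinuousOn stp (quasispectrum ℝ x) := fun t ht =>
    (stp_continuousAt (hne t ht)).continuousWithinAt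
  refine ⟨cfcₙ stp x, cfcₙ_predicate stp x, ?_, ?_⟩
  · rw [← cfcₙ_mul stp stp x hc stp_zero hc stp_zero]
    congr 1
    funext t
    exact stp_mul_self t
  · have h3 : cfcₙ (fun t : ℝ => stp t - t) x = cfcₙ stp x - x := by
      rw [cfcₙ_sub stp (fun t : ℝ => t) x hc stp_zero, cfcₙ_id' ℝ x]
    rw [← h3]
    refine norm_cfcₙ_le ?_
    intro t ht
    rw [Real.norm_eq_abs]
    exact stp_near (hsq t ht)

end Pool.Agent.N51.WS
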